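import Mathlib
import Pool.Agent.D0H46.SC.MainT
import Pool.Agent.D0H46.SC.Tn

namespace Pool.Agent.Results.MP_950ea9_nt.Full

open Finset

/-- The rising factorial `(x)_k = x (x+1) ⋯ (x+k-1)`. -/
def rising (x : ℚ) (k : ℕ) : ℚ := ∏ i ∈ range k, (x + i)

/-- `S(p,r) = ∑_{k=0}^{p^r-1} (3k+1) (1/2)_k^3 / k!^3 * 2^(2k)`. -/
def S (p r : ℕ) : ℚ :=
  ∑ k ∈ range (p ^ r), (3 * k + 1 : ℚ) * (rising (1 / 2) k) ^ 3 / (k.factorial : ℚ) ^ 3 * 2 ^ (2 * k)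

/-- `x ≡ y (mod p^m)`: `x - y = p^m u` with `u` a rational whose denominator is prime to `p`. -/
def CongMod (p m : ℕ) (x y : ℚ) : Prop := ∃ u : ℚ, ¬ p ∣ u.den ∧ x - y = (p : ℚ) ^ m * u

theorem rising_ak (k : ℕ) : rising (1 / 2) k / (k.factorial : ℚ) = Pool.Agent.D0H46.SC.ak k := by
  induction k with
  | zero => simp [rising, Pool.Agent.D0H46.SC.ak]
  | succ k ih =>
    rw [Pool.Agent.D0H46.SC.ak_succ, ← ih]
    unfold rising
    rw [prod_range_succ, Nat.factorial_succ]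
    have h1 : (k.factorial : ℚ) ≠ 0 := by exact_mod_cast k.factorial_ne_zero
    have h2 : ((k : ℚ) + 1) ≠ 0 := by positivity
    have h3 : (2 * (k : ℚ) + 2) ≠ 0 := by positivity
    push_cast
    field_simp
    ring

open Pool.Agent.D0H46.SC in
/-- Q1 in full. -/
theorem result : ∀ p : ℕ, p.Prime → 3 < p → ∀ r : ℕ, 1 ≤ r →
    CongMod p (r + 4) (S p r)
      ((p : ℚ) ^ r + 7 / 6 * bernoulli (p - 3) * (p : ℚ) ^ (r + 3)) := by
  intro p hp hp3 r hr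
  have : Fact p.Prime := ⟨hp⟩
  obtain ⟨P, hP⟩ : Odd p := hp.odd_of_ne_two (by omega)
  obtain ⟨r, rfl⟩ : ∃ s, r = s + 1 := ⟨r - 1, by omega⟩
  have hodd : Odd (p ^ (r + 1)) := Odd.pow ⟨P, hP⟩
  obtain ⟨N, hN⟩ := hodd
  have h := main_congT hP (by omega) r N hN
  obtain ⟨u, hu, hx⟩ := h
  refine ⟨u, hu, ?_⟩
  have hnp : (2 * N + 1 : ℚ) = (p : ℚ) ^ (r + 1) := by exact_mod_cast hN.symm
  have hS : S p (r + 1) = ∑ k ∈ range (2 * N + 1), (3 * k + 1 : ℚ) * ak k ^ 3 * 4^k := by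
    unfold S
    rw [hN]
    apply sum_congr rfl
    intro k _
    rw [← rising_ak, div_pow, pow_mul]
    norm_num
    ring
  rw [T_exact] at hS
  generalize ((2^(2 * N + 1) * ak (2 * N + 1))^2 * ∑ j ∈ range (N+1), ck N j * ((2 * N + 1 : ℚ) / (2 * N + 1 + 2 * j))) = R at *
  rw [hS, hnp]
  have e : (p : ℚ) ^ (r + 1 + 4) = (p : ℚ) ^ (r + 1) * (p : ℚ) ^ 4 := pow_add _ _ _
  have e2 : (p : ℚ) ^ (r + 1 + 3) = (p : ℚ) ^ (r + 1) * (p : ℚ) ^ 3 := pow_add _ _ _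
  rw [e, e2]
  linear_combination ((p : ℚ) ^ (r + 1)) * hx

end Pool.Agent.Results.MP_950ea9_nt.Full
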